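import Pool.Agent.helper68.GB.Spec
import Pool.Agent.helper59.FI.Base

set_option autoImplicit false

namespace Pool.Agent.GB

open Pool.Agent.helper58.DC Pool.Agent.DI Pool.Agent.GR Pool.Agent.OB Pool.Agent.DR Pool.Agent.FI Pool.Agent.FI3 Pool.Agent.FI4 Pool.Agent.LE Pool.Agent.BR

section

variable {G : Type} [Group G]

theorem NSB_rsk_mem {K : Subgroup G} {z : G → ℂ} {x : G} (hx : x ∈ K) : rsk K z x = z x := by
  unfold rsk
  exact if_pos hx

theorem NSB_rsk_not {K : Subgroup G} {z : G → ℂ} {x : G} (hx : x ∉ K) : rsk K z x = 0 := by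
  unfold rsk
  exact if_neg hx

/-- the restriction of a function which is invariant under `K` -/
theorem NSB_rsk_CF {K : Subgroup G} {z : G → ℂ} (hz : ∀ k ∈ K, ∀ x, z (k * x * k⁻¹) = z x) : CF K (rsk K z) := by
  refine ⟨fun h hh x => ?_, fun x hx => NSB_rsk_not hx⟩
  by_cases hx : x ∈ K
  · rw [NSB_rsk_mem hx, NSB_rsk_mem (K.mul_mem (K.mul_mem hh hx) (K.inv_mem hh)), hz h hh x]
  · rw [NSB_rsk_not hx, NSB_rsk_not]
    intro h2
    apply hx
    have h3 := K.mul_mem (K.mul_mem (K.inv_mem hh) h2) hh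
    have h4 : h⁻¹ * (h * x * h⁻¹) * h = x := by group
    rwa [h4] at h3

theorem NSB_rsk_int {M : Ideal (integralClosure ℤ ℂ)} {p : ℕ} (hS : Setup p M) {K : Subgroup G} {z : G → ℂ}
    (hz : ∀ x, IntAt M (z x)) : ∀ x, IntAt M (rsk K z x) := by
  intro x
  by_cases hx : x ∈ K
  · rw [NSB_rsk_mem hx]; exact hz x
  · rw [NSB_rsk_not hx]; exact IntAt.zero hS

/-- the restriction to `K` of a function which is invariant under a group normalising `K` -/
theorem NSB_rsk_inv {K P : Subgroup G} {z : G → ℂ} (hP : ∀ s ∈ P, ∀ x, s * x * s⁻¹ ∈ K ↔ x ∈ K)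
    (hz : ∀ s ∈ P, ∀ x, z (s * x * s⁻¹) = z x) : ∀ s ∈ P, ∀ x, rsk K z (s * x * s⁻¹) = rsk K z x := by
  intro s hs x
  by_cases hx : x ∈ K
  · rw [NSB_rsk_mem hx, NSB_rsk_mem ((hP s hs x).mpr hx), hz s hs x]
  · rw [NSB_rsk_not hx, NSB_rsk_not (fun h => hx ((hP s hs x).mp h))]

theorem NSB_cc_rsk {K : Subgroup G} {ψ z : G → ℂ} (hψ : ∀ x, x ∉ K → ψ x = 0) : cc ψ (rsk K z) = cc ψ z :=
  cc_congr_on hψ fun _ hx => NSB_rsk_mem hx

/-- `nz Q` normalises `cz Q` -/
theorem NSB_nz {Q : Subgroup G} {s : G} (hs : s ∈ nz Q) (x : G) : s * x * s⁻¹ ∈ cz Q ↔ x ∈ cz Q := by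
  have key : ∀ s ∈ nz Q, ∀ x ∈ cz Q, s * x * s⁻¹ ∈ cz Q := by
    intro s hs x hx
    rw [Subgroup.mem_centralizer_iff] at hx ⊢
    intro q hq
    have h1 : s⁻¹ * q * s ∈ Q := by
      have := (Subgroup.mem_normalizer_iff.mp ((nz Q).inv_mem hs) q).mp hq
      rwa [inv_inv] at this
    have h2 := hx _ h1
    calc q * (s * x * s⁻¹) = s * ((s⁻¹ * q * s) * x) * s⁻¹ := by group
      _ = s * (x * (s⁻¹ * q * s)) * s⁻¹ := by rw [h2]
      _ = s * x * s⁻¹ * q := by group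
  refine ⟨fun h => ?_, key s hs x⟩
  have h1 := key s⁻¹ ((nz Q).inv_mem hs) _ h
  have h2 : s⁻¹ * (s * x * s⁻¹) * s⁻¹⁻¹ = x := by group
  rwa [h2] at h1

theorem NSB_Mcong_trans {M : Ideal (integralClosure ℤ ℂ)} {a b c : ℂ} (h1 : Mcong M a b) (h2 : Mcong M b c) :
    Mcong M a c := by
  obtain ⟨x, hx, ex⟩ := h1
  obtain ⟨y, hy, ey⟩ := h2
  refine ⟨x + y, M.add_mem hx hy, ?_⟩
  push_cast
  rw [← ex, ← ey]
  ring

end

theorem NSB (hDIC : DIC_stmt) (hBRQ : BRQ_stmt) (hBRK : BRK_stmt) (hPWN : PWN_stmt) (hCCI : CCI_stmt)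
    (hCVF : CVF_stmt) (hREP : REP_stmt) (hIDM : IDM_stmt) : NSB_stmt := by
  intro p M hS G _ _ Q R e f
  obtain ⟨cv_assoc, cv_lin, cv_smul, cv_one, cv_inv, cv_supp, cv_comm, cv_CF, cv_CFs, cv_dl, cv_int, cv_inM⟩ := hCVF G
  have cvI := cv_int p M hS
  have cvM := cv_inM p M hS
  -- powers
  have cvp_CF : ∀ (K : Subgroup G) (a : G → ℂ), CF K a → ∀ k, CF K (cvp a k) := by
    intro K a ha k
    induction k with
    | zero => exact cv_dl K
    | succ k ih => exact (cv_CF K _ _ ih ha).1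
  have cc_pow : ∀ (K : Subgroup G) (a : G → ℂ), CF K a → ∀ ψ ∈ IrrOn K, ∀ k, cc ψ (cvp a k) = (cc ψ a) ^ k := by
    intro K a ha ψ hψ k
    induction k with
    | zero =>
      rw [pow_zero]
      exact ((hCCI G K ψ hψ).1 0 0 0).2.2.2
    | succ k ih =>
      rw [pow_succ, ← ih]
      exact (hCCI G K ψ hψ).2.1 _ _ (cvp_CF K a ha k) ha
  have key2 : Pai p M Q e → Pai p M R f → Q ≤ R → R ≤ cz Q → SB M (cz Q) (rep M (cz R) f) (rep M (cz Q) e) →
      Nin p M Q e R f := by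
    intro hQ hR hQR hRQ hSB
    obtain ⟨-, rep1, rep2, rep3, -⟩ := hREP p M hS G (cz Q)
    obtain ⟨-, rep1', rep2', rep3', -⟩ := hREP p M hS G (cz R)
    obtain ⟨eCF, e0, eI, ee⟩ := rep3 e hQ.bb
    obtain ⟨d0, d1, -, -, d4⟩ := hDIC p M hS G (cz R)
    have hczR : cz R ≤ cz Q := cz_mono hQR
    refine ⟨hQ, hR, hQR, hRQ.trans (cz_le_nz Q), fun s hs x => eCF.1 s (hRQ hs) x, ?_⟩
    have hinf : cz Q ⊓ cz R = cz R := inf_eq_right.mpr hczR
    have hz1 : CF (cz R) (rsk (cz R) e) := NSB_rsk_CF fun k hk x => eCF.1 k (hczR hk) x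
    have hz2 : ∀ x, IntAt M (rsk (cz R) e x) := NSB_rsk_int hS eI
    have hz3 : ∀ x, InM M (cv (rsk (cz R) e) (rsk (cz R) e) x - rsk (cz R) e x) := by
      intro x
      have h := hBRQ p M hS G (cz Q) R hR.pg e e e0 e0 eI eI (fun s hs x => eCF.1 s (hRQ hs) x)
        (fun s hs x => eCF.1 s (hRQ hs) x) x
      rw [hinf, ee] at h
      have h2 := InM.neg h
      rwa [neg_sub] at h2
    rcases d4 f hR.bb _ hz1 hz2 hz3 with h | h
    · exfalso
      have h1 : cc (rep M (cz R) f) (rsk (cz R) e) = cc (rep M (cz R) f) e :=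
        NSB_cc_rsk (fun x hx => IrrOn_zero (rep1' f hR.bb).1 hx)
      have h2 := SBIb hS hSB eCF eI
      have h3 : cc (rep M (cz Q) e) e = 1 := ((hDIC p M hS G (cz Q)).1 e hQ.bb e hQ.bb).1 rfl
      have h4 := h.2
      rw [h1] at h4
      rw [h3] at h2
      apply InM.not_one hS
      have h5 := InM.sub hS h4 h2
      rwa [sub_sub_cancel] at h5
    · exact h.1
  have key1 : ∀ (Q R : Subgroup G) (e f : G → ℂ), Nin p M Q e R f → ∀ L : Subgroup G, R ≤ L → cz Q ≤ L →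
      SB M L (rep M (cz R) f) (rep M (cz Q) e) := by
    intro Q R e f hN L hRL hQL z hz hzi
    obtain ⟨-, rep1, rep2, rep3, -⟩ := hREP p M hS G (cz Q)
    obtain ⟨-, rep1', rep2', rep3', -⟩ := hREP p M hS G (cz R)
    obtain ⟨eCF, e0, eI, ee⟩ := rep3 e hN.q.bb
    obtain ⟨θI, θe⟩ := rep1 e hN.q.bb
    obtain ⟨φI, φf⟩ := rep1' f hN.r.bb
    obtain ⟨d0, d1, -, -, d4⟩ := hDIC p M hS G (cz R)
    have hczR : cz R ≤ cz Q := cz_mono hN.le
    have hinf : cz Q ⊓ cz R = cz R := inf_eq_right.mpr hczR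
    have hzI : ∀ x, IntAt M (z x) := fun x => IntAt.of_isIntegral hS (hzi x)
    obtain ⟨z', hz'⟩ : ∃ z', z' = rsk (cz Q) z := ⟨_, rfl⟩
    have z'CF : CF (cz Q) z' := by
      rw [hz']
      exact NSB_rsk_CF fun k hk x => hz.1 k (hQL hk) x
    have z'I : ∀ x, IntAt M (z' x) := by
      rw [hz']
      exact NSB_rsk_int hS hzI
    have z'R : Inv R z' := by
      rw [hz']
      exact NSB_rsk_inv (fun s hs x => NSB_nz (hN.nor hs) x) fun s hs x => hz.1 s (hRL hs) x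
    have hθ0 : ∀ x, x ∉ cz Q → rep M (cz Q) e x = 0 := fun x hx => IrrOn_zero θI hx
    have hφ0 : ∀ x, x ∉ cz R → rep M (cz R) f x = 0 := fun x hx => IrrOn_zero φI hx
    obtain ⟨lam, hlam⟩ : ∃ lam, lam = cc (rep M (cz Q) e) z := ⟨_, rfl⟩
    have hlam' : cc (rep M (cz Q) e) z' = lam := by
      rw [hz', hlam]
      exact NSB_cc_rsk hθ0
    have hlamInt : IsIntegral ℤ lam := by
      rw [hlam]
      exact (C3 G).1 (cz Q) _ θI z (fun l hl x => hz.1 l (hQL hl) x) hzi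
    have hφInt : IsIntegral ℤ (cc (rep M (cz R) f) z) :=
      (C3 G).1 (cz R) _ φI z (fun l hl x => hz.1 l (hQL (hczR hl)) x) hzi
    have hlamI : IntAt M lam := IntAt.of_isIntegral hS hlamInt
    -- the element w
    obtain ⟨w, hw⟩ : ∃ w, w = cv z' e - lam • e := ⟨_, rfl⟩
    have hwCF : CF (cz Q) w := by
      rw [hw]
      exact (cv_CF (cz Q) _ _ (cv_CF (cz Q) _ _ z'CF eCF).1 (cv_CFs (cz Q) lam e eCF)).2.2
    have hwI : ∀ x, IntAt M (w x) := by
      intro x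
      rw [hw]
      exact IntAt.sub hS (cvI _ _ z'I eI x) (IntAt.mul hS hlamI (eI x))
    have hwR : Inv R w := by
      intro s hs x
      rw [hw]
      show cv z' e (s * x * s⁻¹) - lam * e (s * x * s⁻¹) = cv z' e x - lam * e x
      rw [cv_inv s z' e (fun x => z'R s hs x) (fun x => hN.inv s hs x) x, hN.inv s hs x]
    have hwcc : ∀ η ∈ IrrOn (cz Q), InM M (cc η w) := by
      intro η hη
      obtain ⟨c1, c2, c3⟩ := hCCI G (cz Q) η hη
      have h1 : cc η w = cc η e * (cc η z' - lam) := by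
        rw [hw, (c1 0 (cv z' e) (lam • e)).2.1, (c1 lam e 0).2.2.1, c2 z' e z'CF eCF]
        ring
      have h3 := (hIDM G (cz Q) (Bl M (cz Q) (rep M (cz Q) e)) (fun ψ hψ => hψ.1)).2.1 η hη
      rw [θe] at h3
      rw [h1]
      by_cases hb : η ∈ Bl M (cz Q) (rep M (cz Q) e)
      · rw [if_pos hb] at h3
        rw [h3, one_mul, ← hlam']
        exact SBIb hS hb.2 z'CF z'I
      · rw [if_neg hb] at h3
        rw [h3, zero_mul]
        exact InM.zero hS
    obtain ⟨n, hn⟩ := hPWN p M hS G (cz Q) w hwCF hwI hwcc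
    have hn1 : ∀ x, InM M (cvp w (n + 1) x) := by
      intro x
      show InM M (cv (cvp w n) w x)
      have h1 : cv (cvp w n) w = cv w (cvp w n) := cv_comm (cz Q) _ _ (cvp_CF _ _ hwCF n) hwCF.2
      rw [h1]
      exact cvM w (cvp w n) hwI hn x
    obtain ⟨w', hw'⟩ : ∃ w', w' = rsk (cz R) w := ⟨_, rfl⟩
    have hw'CF : CF (cz R) w' := by
      rw [hw']
      exact NSB_rsk_CF fun k hk x => hwCF.1 k (hczR hk) x
    have hw'I : ∀ x, IntAt M (w' x) := by
      rw [hw']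
      exact NSB_rsk_int hS hwI
    obtain ⟨c1, c2, c3⟩ := hCCI G (cz R) (rep M (cz R) f) φI
    have hpow : ∀ x, InM M (cvp w' (n + 1) x) := by
      intro x
      have h1 := (hBRK p M hS G (cz Q) R hN.r.pg w hwCF.2 hwI hwR).1 (n + 1) x (by omega)
      rw [hinf, ← hw'] at h1
      have h2 : InM M (rsk (cz R) (cvp w (n + 1)) x) := by
        by_cases hx : x ∈ cz R
        · rw [NSB_rsk_mem hx]; exact hn1 x
        · rw [NSB_rsk_not hx]; exact InM.zero hS
      have h3 := InM.sub hS h2 h1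
      rwa [sub_sub_cancel] at h3
    have hccw : InM M (cc (rep M (cz R) f) w') := by
      have h1 : InM M (cc (rep M (cz R) f) (cvp w' (n + 1))) :=
        (c3 p M hS _ (fun h hh x => (cvp_CF _ _ hw'CF (n + 1)).1 h hh x)).2 hpow
      rw [cc_pow (cz R) w' hw'CF _ φI] at h1
      exact InM.of_pow hS ((c3 p M hS _ (fun h hh x => hw'CF.1 h hh x)).1 hw'I) h1
    -- the restrictions
    have hr1 : CF (cz R) (rsk (cz R) e) := NSB_rsk_CF fun k hk x => eCF.1 k (hczR hk) x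
    have hr2 : CF (cz R) (rsk (cz R) z') := NSB_rsk_CF fun k hk x => z'CF.1 k (hczR hk) x
    have hr1I : ∀ x, IntAt M (rsk (cz R) e x) := NSB_rsk_int hS eI
    have hr2I : ∀ x, IntAt M (rsk (cz R) z' x) := NSB_rsk_int hS z'I
    have hc : InM M (cc (rep M (cz R) f) (rsk (cz R) e) - 1) := by
      have hz3 : ∀ x, InM M (cv (rsk (cz R) e) (rsk (cz R) e) x - rsk (cz R) e x) := by
        intro x
        have h := hBRQ p M hS G (cz Q) R hN.r.pg e e e0 e0 eI eI hN.inv hN.inv x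
        rw [hinf, ee] at h
        have h2 := InM.neg h
        rwa [neg_sub] at h2
      rcases d4 f hN.r.bb _ hr1 hr1I hz3 with h | h
      · exfalso
        apply d1 f hN.r.bb
        intro x
        have h5 := InM.sub hS (h.1 x) (hN.ef x)
        rwa [sub_sub_cancel] at h5
      · exact h.2
    have hzz : cc (rep M (cz R) f) (rsk (cz R) z') = cc (rep M (cz R) f) z := by
      refine cc_congr_on hφ0 fun x hx => ?_
      rw [NSB_rsk_mem hx, hz', NSB_rsk_mem (hczR hx)]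
    have hcv : InM M (cc (rep M (cz R) f) (rsk (cz R) (cv z' e)) -
        cc (rep M (cz R) f) z * cc (rep M (cz R) f) (rsk (cz R) e)) := by
      have h1 : CF (cz R) (rsk (cz R) (cv z' e)) :=
        NSB_rsk_CF fun k hk x => (cv_CF (cz Q) _ _ z'CF eCF).1.1 k (hczR hk) x
      have h2 : CF (cz R) (cv (rsk (cz R) z') (rsk (cz R) e)) := (cv_CF (cz R) _ _ hr2 hr1).1
      have h3 := (c3 p M hS (rsk (cz R) (cv z' e) - cv (rsk (cz R) z') (rsk (cz R) e))
        (fun h hh x => ((cv_CF (cz R) _ _ h1 h2).2.2).1 h hh x)).2 (fun x => by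
          have h4 := hBRQ p M hS G (cz Q) R hN.r.pg z' e z'CF.2 e0 z'I eI z'R hN.inv x
          rw [hinf] at h4
          exact h4)
      rw [(c1 0 (rsk (cz R) (cv z' e)) (cv (rsk (cz R) z') (rsk (cz R) e))).2.1, c2 _ _ hr2 hr1, hzz] at h3
      exact h3
    have hw'eq : cc (rep M (cz R) f) w' = cc (rep M (cz R) f) (rsk (cz R) (cv z' e)) -
        lam * cc (rep M (cz R) f) (rsk (cz R) e) := by
      have h1 : w' = rsk (cz R) (cv z' e) - lam • rsk (cz R) e := by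
        rw [hw', hw]
        funext x
        show rsk (cz R) (cv z' e - lam • e) x = rsk (cz R) (cv z' e) x - lam * rsk (cz R) e x
        by_cases hx : x ∈ cz R
        · rw [NSB_rsk_mem hx, NSB_rsk_mem hx, NSB_rsk_mem hx]
          rfl
        · rw [NSB_rsk_not hx, NSB_rsk_not hx, NSB_rsk_not hx]
          ring
      rw [h1, (c1 0 (rsk (cz R) (cv z' e)) (lam • rsk (cz R) e)).2.1, (c1 lam (rsk (cz R) e) 0).2.2.1]
    obtain ⟨a, ha⟩ : ∃ a, a = cc (rep M (cz R) f) z := ⟨_, rfl⟩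
    obtain ⟨c, hcdef⟩ : ∃ c, c = cc (rep M (cz R) f) (rsk (cz R) e) := ⟨_, rfl⟩
    rw [← ha, ← hcdef] at hcv
    rw [← hcdef] at hc hw'eq
    have hfin : InM M (a - lam) := by
      have h1 : InM M ((a - lam) * c) := by
        have h2 := InM.sub hS hccw hcv
        rw [hw'eq] at h2
        have h3 : cc (rep M (cz R) f) (rsk (cz R) (cv z' e)) - lam * c -
            (cc (rep M (cz R) f) (rsk (cz R) (cv z' e)) - a * c) = (a - lam) * c := by ring
        rwa [h3] at h2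
      have h2 : InM M ((a - lam) * (c - 1)) := InM.mul_left hS (by
        rw [ha]
        exact IntAt.sub hS (IntAt.of_isIntegral hS hφInt) hlamI) hc
      have h3 := InM.sub hS h1 h2
      have h4 : (a - lam) * c - (a - lam) * (c - 1) = a - lam := by ring
      rwa [h4] at h3
    rw [← ha] at hφInt ⊢
    rw [← hlam]
    exact InM.mcong hS hφInt hlamInt hfin
  refine ⟨key1 Q R e f, key2, ?_⟩
  intro hP
  have hgen : ∀ b : Subgroup G × (G → ℂ), Relation.ReflTransGen (fun a b : Subgroup G × (G → ℂ) => Nin p M a.1 a.2 b.1 b.2) (Q, e) b →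
      Q ≤ b.1 ∧ ∀ L : Subgroup G, b.1 ≤ L → cz Q ≤ L → SB M L (rep M (cz b.1) b.2) (rep M (cz Q) e) := by
    intro b hb
    induction hb with
    | refl =>
      refine ⟨le_rfl, fun L _ _ z _ _ => ?_⟩
      exact ⟨0, M.zero_mem, by simp⟩
    | tail _ h2 ih =>
      refine ⟨ih.1.trans h2.le, fun L hL hL' => ?_⟩
      have h3 := key1 _ _ _ _ h2 L hL ((Subgroup.centralizer_le (show ((Q : Subgroup G) : Set G) ⊆ _ from ih.1)).trans hL')
      intro z hz hi
      exact NSB_Mcong_trans (h3 z hz hi) (ih.2 L (h2.le.trans hL) hL' z hz hi)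
  exact hgen (R, f) hP

end Pool.Agent.GB
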